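import Pool.Agent.H19.PD.Zig
import Pool.Agent.H4.Singer.L2Hodge
import Pool.Agent.H85.Fold.Sphere

/-!
# Project PD: Poincaré duality for the reduced `ℓ²`-homology of right-angled Coxeter groups
-/

set_option autoImplicit false
set_option linter.unusedSectionVars false

open Finset

namespace Pool.Agent.H19.PD

open Pool.Agent.H85.Fold Pool.Agent.H4.Singer

variable {V : Type} [DecidableEq V] [Fintype V] {G : SimpleGraph V}

/-- square summable functions on the group -/
abbrev LS (G : SimpleGraph V) : Type := lp (fun _ : RGrp G => ℂ) 2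

theorem mem_tr (v : V) (f : LS G) :
    Memℓp (E := fun _ : RGrp G => ℂ) (fun w => f (w * gen G v)) 2 := by
  rw [l2h_mem_iff]
  exact ((Equiv.mulRight (gen G v)).summable_iff (f := fun w => ‖f w‖ ^ 2)).2
    ((l2h_mem_iff _).1 (lp.memℓp f))

/-- right translation -/
noncomputable def UU (G : SimpleGraph V) (v : V) : LS G →ₗ[ℝ] LS G where
  toFun f := ⟨fun w => f (w * gen G v), mem_tr v f⟩
  map_add' f g := by
    ext w
    rfl
  map_smul' r f := by
    ext w
    rfl

theorem UU_apply (v : V) (f : LS G) (w : RGrp G) : UU G v f w = f (w * gen G v) := rfl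

theorem UU_UU (v : V) (f : LS G) : UU G v (UU G v f) = f := by
  ext w
  rw [UU_apply, UU_apply, mul_assoc, l2h_gen_sq, mul_one]

theorem UU_comm {u v : V} (h : G.Adj u v) (f : LS G) : UU G u (UU G v f) = UU G v (UU G u f) := by
  ext w
  rw [UU_apply, UU_apply, UU_apply, UU_apply, mul_assoc, mul_assoc, l2h_gen_comm G u v h]

theorem UU_inner (v : V) (f g : LS G) : inner ℝ (UU G v f) g = inner ℝ f (UU G v g) := by
  rw [lp.inner_eq_tsum, lp.inner_eq_tsum]
  rw [← (Equiv.mulRight (gen G v)).tsum_eq]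
  refine tsum_congr fun w => ?_
  rw [UU_apply, UU_apply, Equiv.coe_mulRight, mul_assoc, l2h_gen_sq, mul_one]

/-- the projection onto the anti-invariant functions -/
noncomputable def PP (G : SimpleGraph V) (v : V) : LS G →ₗ[ℝ] LS G :=
  (1 / 2 : ℝ) • (LinearMap.id - UU G v)

theorem PP_apply (v : V) (f : LS G) : PP G v f = (1 / 2 : ℝ) • (f - UU G v f) := rfl

theorem PP_fix {v : V} {f : LS G} : PP G v f = f ↔ UU G v f = -f := by
  rw [PP_apply]
  constructor
  · intro h
    have h1 : f - UU G v f = (2 : ℝ) • f := by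
      rw [← h, smul_smul, h]
      norm_num
    rw [two_smul] at h1
    have h2 : UU G v f = f - (f + f) := by
      rw [← h1]
      abel
    rw [h2]
    abel
  · intro h
    rw [h, sub_neg_eq_add, ← two_smul ℝ f, smul_smul]
    norm_num

theorem PP_zero {v : V} {f : LS G} : PP G v f = 0 ↔ UU G v f = f := by
  rw [PP_apply, smul_eq_zero, sub_eq_zero]
  constructor
  · rintro (h | h)
    · norm_num at h
    · exact h.symm
  · exact fun h => Or.inr h.symm

theorem isP : IsP G (PP G) (innerₗ (LS G)) where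
  idem v f := by
    rw [PP_fix, PP_apply, map_smul, map_sub, UU_UU, ← smul_neg, neg_sub]
  comm u v h f := by
    simp only [PP_apply, map_smul, map_sub, UU_comm h]
    congr 1
    simp only [smul_sub]
    abel
  adj v f g := by
    simp only [innerₗ_apply_apply, PP_apply, inner_smul_left, inner_smul_right, inner_sub_left,
      inner_sub_right, UU_inner]
    rfl

/-- the sign of an element -/
noncomputable def sw (G : SimpleGraph V) (w : RGrp G) : ℂ :=
  if (racg G).toCoxeterSystem.lengthParity w = 1 then 1 else -1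

theorem sw_mul (w : RGrp G) (v : V) : sw G (w * gen G v) = - sw G w := by
  have h1 : (racg G).toCoxeterSystem.lengthParity (gen G v) = Multiplicative.ofAdd 1 :=
    (racg G).toCoxeterSystem.lengthParity_simple v
  unfold sw
  rw [map_mul, h1]
  have h2 : ∀ a : Multiplicative (ZMod 2), (a * Multiplicative.ofAdd 1 = 1 ↔ ¬ a = 1) := by
    decide
  by_cases h : (racg G).toCoxeterSystem.lengthParity w = 1
  · rw [if_neg (fun h3 => (h2 _).1 h3 h), if_pos h]
  · rw [if_pos ((h2 _).2 h), if_neg h, neg_neg]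

theorem sw_norm (w : RGrp G) : ‖sw G w‖ = 1 := by
  unfold sw
  split_ifs <;> simp

theorem sw_sq (w : RGrp G) : sw G w * sw G w = 1 := by
  unfold sw
  split_ifs <;> simp

/-- the boundary of chains with values in the functions -/
theorem bd_val (ν : V → ℕ) (c : Finset V → LS G) (τ : Finset V) (w : RGrp G) :
    (bd ν c τ) w = ∑ v ∈ τᶜ, (-1 : ℂ) ^ (τ.filter fun u => ν u < ν v).card *
      (c (insert v τ)) w := by
  have h1 : bd ν c τ = ∑ v ∈ τᶜ, sgn ν v τ • c (insert v τ) := rfl
  have h2 : ∀ (s : Finset V) (f : V → LS G), (∑ v ∈ s, f v) w = ∑ v ∈ s, (f v) w := by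
    intro s f
    rw [← l2hEv_apply w, map_sum]
    rfl
  rw [h1, h2]
  refine sum_congr rfl fun v _ => ?_
  have h3 : (sgn ν v τ • c (insert v τ)) w = sgn ν v τ • (c (insert v τ)) w := rfl
  rw [h3]
  unfold sgn
  rw [Complex.real_smul]
  push_cast
  rfl

theorem cl_iff {σ : Finset V} : Cl G σ ↔ G.IsClique (σ : Set V) := by
  unfold Cl
  rw [SimpleGraph.isClique_iff]
  exact ⟨fun h u hu v hv huv => h u hu v hv huv, fun h u hu v hv huv => h hu hv huv⟩

/-- the estimate of the pairing -/
theorem pr_le (x : Finset V → Finset V → LS G) (g : Finset V → LS G) (δ : ℝ)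
    (hg : ∀ σ, ‖g σ‖ ≤ δ) : |pr (innerₗ (LS G)) x g| ≤ (∑ σ : Finset V, ‖x ∅ σ‖) * δ := by
  unfold pr
  refine (abs_sum_le_sum_abs _ _).trans ?_
  rw [sum_mul]
  refine sum_le_sum fun σ _ => ?_
  refine (abs_real_inner_le_norm (x ∅ σ) (g σ)).trans ?_
  exact mul_le_mul_of_nonneg_left (hg σ) (norm_nonneg _)

/-- **Poincaré duality.** If the flag complex of `G` is a real homology sphere of dimension `n - 1` and the
reduced `ℓ²`-homology of the Davis complex vanishes in degree `n - i`, then it vanishes in degree `i`. -/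
theorem l2_dual {n i j : ℕ} (hS : IsHomologySphere G n) (hij : i + j = n)
    (h : Pool.Agent.H4.Singer.L2HomologyZero G j) : Pool.Agent.H4.Singer.L2HomologyZero G i := by
  classical
  intro ν hν z hz hdz ε hε
  refine l2_hodge G ν hν i (fun x0 hx0 => ?_) z hz hdz ε hε
  obtain ⟨o, ho⟩ := hS.isSphere ν hν
  have hin : i ≤ n := by omega
  -- the chain with values in the functions
  obtain ⟨c, hcv⟩ : ∃ c : Finset V → LS G, ∀ σ w, (c σ) w = x0 σ w :=
    ⟨fun σ => ⟨x0 σ, (l2h_mem_iff _).2 (hx0.chain.l2 σ)⟩, fun _ _ => rfl⟩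
  have hc : IsF G (cp (PP G)) ⊤ univ i c := by
    refine ⟨fun _ => Submodule.mem_top, fun σ v hv => ?_, fun σ hσ => ?_⟩
    · rw [cp_zero, PP_fix]
      ext w
      rw [UU_apply, hcv, hx0.chain.anti σ v hv w, ← hcv]
      rfl
    · obtain ⟨w, hw⟩ : ∃ w, (c σ) w ≠ 0 := by
        by_contra hcon
        push Not at hcon
        exact hσ (by
          ext w
          exact hcon w)
      rw [hcv] at hw
      obtain ⟨h1, h2⟩ := hx0.chain.supp σ w hw
      exact ⟨subset_univ _, cl_iff.2 h1, h2⟩
  have hbd : bd ν c = 0 := by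
    funext τ
    ext w
    rw [bd_val]
    have h1 := congrFun (congrFun hx0.cyc τ) w
    unfold dbd at h1
    simp only [hcv]
    exact h1
  have hco : ∀ ρ, Cl G ρ → ρ.card = i + 1 →
      ∑ v ∈ ρ, sgn ν v ρ • PP G v (c (ρ.erase v)) = 0 := by
    intro ρ h1 h2
    ext w
    have h3 : ∀ (s : Finset V) (f : V → LS G), (∑ v ∈ s, f v) w = ∑ v ∈ s, (f v) w := by
      intro s f
      rw [← l2hEv_apply w, map_sum]
      rfl
    rw [h3]
    have h4 := hx0.cocyc ρ w (cl_iff.1 h1) h2
    have h5 : ∀ v ∈ ρ, (sgn ν v ρ • PP G v (c (ρ.erase v))) w =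
        (1 / 2 : ℂ) * ((-1) ^ ((ρ.erase v).filter fun u => ν u < ν v).card *
          (x0 (ρ.erase v) w - x0 (ρ.erase v) (w * gen G v))) := by
      intro v hv
      have h6 : (sgn ν v ρ • PP G v (c (ρ.erase v))) w =
          sgn ν v ρ • ((1 / 2 : ℝ) • ((c (ρ.erase v)) w - (c (ρ.erase v)) (w * gen G v))) := rfl
      rw [h6, hcv, hcv, ← sgn_erase_self]
      unfold sgn
      rw [Complex.real_smul, Complex.real_smul]
      push_cast
      ring
    rw [sum_congr rfl h5, ← mul_sum, h4, mul_zero]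
    rfl
  obtain ⟨x, hx⟩ := exists_res hν ho hc hbd
  obtain ⟨f, hf, hbf, hpr⟩ := zig isP hν ho hin hc hco hx
  -- the pairing vanishes
  have hpr0 : pr (innerₗ (LS G)) x f = 0 := by
    -- the twisted chain
    have hz1 : IsL2Chain G j (fun σ w => sw G w * (f σ) w) := by
      refine ⟨fun σ w hne => ?_, fun σ v hv w => ?_, fun σ => ?_⟩
      · have h1 : f σ ≠ 0 := by
          intro h2
          apply hne
          show sw G w * (f σ) w = 0
          rw [h2]
          exact mul_zero _
        obtain ⟨-, h2, h3⟩ := hf.supp σ h1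
        exact ⟨cl_iff.1 h2, by omega⟩
      · show sw G (w * gen G v) * (f σ) (w * gen G v) = -(sw G w * (f σ) w)
        have h1 := PP_zero.1 (hf.ker σ v hv)
        have h2 : (f σ) (w * gen G v) = (f σ) w := by
          rw [← UU_apply, h1]
        rw [sw_mul, h2, neg_mul]
      · have h1 : (fun w => ‖sw G w * (f σ) w‖ ^ 2) = fun w => ‖(f σ) w‖ ^ 2 := by
          funext w
          rw [norm_mul, sw_norm, one_mul]
        rw [h1]
        exact (l2h_mem_iff _).1 (lp.memℓp (f σ))
    have hz2 : dbd ν (fun σ w => sw G w * (f σ) w) = 0 := by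
      funext τ w
      have h1 : (bd ν f τ) w = 0 := by
        rw [hbf]
        rfl
      rw [bd_val] at h1
      show ∑ v ∈ τᶜ, (-1 : ℂ) ^ (τ.filter fun u => ν u < ν v).card *
        (sw G w * (f (insert v τ)) w) = 0
      have h2 : ∀ v ∈ τᶜ, (-1 : ℂ) ^ (τ.filter fun u => ν u < ν v).card *
          (sw G w * (f (insert v τ)) w) = sw G w *
          ((-1 : ℂ) ^ (τ.filter fun u => ν u < ν v).card * (f (insert v τ)) w) := fun v _ => by
        ring
      rw [sum_congr rfl h2, ← mul_sum, h1, mul_zero]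
    -- the estimate
    have hest : ∀ δ : ℝ, 0 < δ →
        |pr (innerₗ (LS G)) x f| ≤ (∑ σ : Finset V, ‖x ∅ σ‖) * δ := by
      intro δ hδ
      obtain ⟨y, hy, hyε⟩ := h ν hν _ hz1 hz2 (δ ^ 2) (by positivity)
      obtain ⟨y', hy'v⟩ : ∃ y' : Finset V → LS G, ∀ σ w, (y' σ) w = sw G w * y σ w := by
        refine ⟨fun σ => ⟨fun w => sw G w * y σ w, (l2h_mem_iff _).2 ?_⟩, fun _ _ => rfl⟩
        have h1 : (fun w => ‖sw G w * y σ w‖ ^ 2) = fun w => ‖y σ w‖ ^ 2 := by
          funext w
          rw [norm_mul, sw_norm, one_mul]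
        rw [h1]
        exact hy.l2 σ
      have hy' : IsF G (PP G) ⊤ univ (j + 1) y' := by
        refine ⟨fun _ => Submodule.mem_top, fun σ v hv => ?_, fun σ hσ => ?_⟩
        · rw [PP_zero]
          ext w
          rw [UU_apply, hy'v, hy'v, sw_mul, hy.anti σ v hv w, neg_mul_neg]
        · obtain ⟨w, hw⟩ : ∃ w, (y' σ) w ≠ 0 := by
            by_contra hcon
            push Not at hcon
            exact hσ (by
              ext w
              exact hcon w)
          rw [hy'v] at hw
          obtain ⟨h1, h2⟩ := hy.supp σ w (right_ne_zero_of_mul hw)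
          exact ⟨subset_univ _, cl_iff.2 h1, h2⟩
      -- boundaries are orthogonal
      have hb0 : pr (innerₗ (LS G)) x (bd ν y') = 0 := by
        rw [pr_bd_right hx.isD fun σ hσ => ⟨(hy'.supp σ hσ).1, (hy'.supp σ hσ).2.1⟩, ← hx.closed]
        refine sum_eq_zero fun σ _ => ?_
        have h3 : d1 ν x ∅ σ = ∑ v ∈ σ \ ∅, sgn ν v ∅ • x (insert v ∅) σ := rfl
        rw [h3, map_sum, LinearMap.sum_apply]
        refine sum_eq_zero fun v hv => ?_
        rw [sdiff_empty] at hv
        have h4 := cp_zero.1 (hx.isD.ker (insert v ∅) σ v (mem_insert_self v ∅))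
        have h5 := hy'.ker σ v hv
        rw [map_smul, LinearMap.smul_apply, ← h4, isP.adj, h5, map_zero, smul_zero]
      have hsub : pr (innerₗ (LS G)) x f = pr (innerₗ (LS G)) x (f - bd ν y') := by
        rw [pr_sub_right, hb0, sub_zero]
      rw [hsub]
      refine pr_le x _ δ fun σ => ?_
      have h6 : ‖(f - bd ν y') σ‖ ^ 2 = ∑' w, ‖sw G w * (f σ) w - dbd ν y σ w‖ ^ 2 := by
        have h7 := lp.norm_rpow_eq_tsum (p := 2) (by norm_num) ((f - bd ν y') σ)
        have h8 : ‖(f - bd ν y') σ‖ ^ 2 = ∑' w, ‖((f - bd ν y') σ) w‖ ^ 2 := by simpa using h7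
        rw [h8]
        refine tsum_congr fun w => ?_
        have h9 : ((f - bd ν y') σ) w = (f σ) w - (bd ν y' σ) w := rfl
        have h10 : (bd ν y' σ) w = sw G w * dbd ν y σ w := by
          rw [bd_val]
          unfold dbd
          rw [mul_sum]
          refine sum_congr rfl fun v _ => ?_
          rw [hy'v]
          ring
        have h11 : sw G w * (f σ) w - dbd ν y σ w = sw G w * ((f σ) w - sw G w * dbd ν y σ w) := by
          rw [mul_sub, ← mul_assoc, sw_sq, one_mul]
        rw [h9, h10, h11, norm_mul, sw_norm, one_mul]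
      have h12 : ‖(f - bd ν y') σ‖ ^ 2 ≤ δ ^ 2 := by
        rw [h6]
        refine le_trans ?_ hyε.le
        exact single_le_sum (f := fun σ => ∑' w, ‖sw G w * (f σ) w - dbd ν y σ w‖ ^ 2)
          (fun τ _ => tsum_nonneg fun w => by positivity) (mem_univ σ)
      exact (pow_le_pow_iff_left₀ (norm_nonneg _) hδ.le two_ne_zero).1 h12
    by_contra hne
    have h1 : 0 < |pr (innerₗ (LS G)) x f| := abs_pos.2 hne
    have h2 : 0 ≤ ∑ σ : Finset V, ‖x ∅ σ‖ := sum_nonneg fun σ _ => norm_nonneg _
    have h3 := hest (|pr (innerₗ (LS G)) x f| / (2 * ((∑ σ : Finset V, ‖x ∅ σ‖) + 1)))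
      (by positivity)
    rw [mul_div_assoc', le_div_iff₀ (by positivity)] at h3
    nlinarith
  rw [hpr0] at hpr
  -- the chain is zero
  have hc0 : ∀ ρ, c ρ = 0 := by
    intro ρ
    have h1 : ∀ ρ ∈ (univ : Finset (Finset V)), 0 ≤ innerₗ (LS G) (c ρ) (c ρ) := fun ρ _ =>
      @real_inner_self_nonneg (LS G) _ _ (c ρ)
    have h2 := (sum_eq_zero_iff_of_nonneg h1).1 hpr.symm ρ (mem_univ _)
    exact inner_self_eq_zero.1 h2
  funext ρ w
  rw [← hcv, hc0]
  rfl

end Pool.Agent.H19.PD
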