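import Pool.Agent.H85.Fold.Res
import Pool.Agent.H85.Fold.Sgn

/-!
# Project PD: commuting projections and the adjoint of the double complex
-/

set_option autoImplicit false
set_option linter.unusedSectionVars false

open Finset

namespace Pool.Agent.H19.PD

open Pool.Agent.H85.Fold

variable {V : Type} [DecidableEq V] [Fintype V] {S : Type} [AddCommGroup S] [Module ℝ S]
  {G : SimpleGraph V} {p : V → S →ₗ[ℝ] S} {β : S →ₗ[ℝ] S →ₗ[ℝ] ℝ} {ν : V → ℕ}

/-- projections which commute for adjacent vertices and are symmetric for a form -/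
structure IsP (G : SimpleGraph V) (p : V → S →ₗ[ℝ] S) (β : S →ₗ[ℝ] S →ₗ[ℝ] ℝ) : Prop where
  idem : ∀ v x, p v (p v x) = p v x
  comm : ∀ u v, G.Adj u v → ∀ x, p u (p v x) = p v (p u x)
  adj : ∀ v x y, β (p v x) y = β x (p v y)

/-- the complementary projections -/
def cp (p : V → S →ₗ[ℝ] S) (v : V) : S →ₗ[ℝ] S := LinearMap.id - p v

theorem cp_apply (v : V) (x : S) : cp p v x = x - p v x := rfl

theorem cp_zero {v : V} {x : S} : cp p v x = 0 ↔ p v x = x := by
  rw [cp_apply, sub_eq_zero, eq_comm]

/-- The columns of the adjoint double complex are exact. -/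
theorem col (hp : IsP G p β) (hν : Function.Injective ν) (l : ℕ) (τ : Finset V) (hτ : Cl G τ) :
    ∀ w : Finset V → S, (∀ ρ, ∀ v ∈ ρ, p v (w ρ) = w ρ) →
      (∀ ρ, w ρ ≠ 0 → ρ ⊆ τ ∧ ρ.card = l + 1) →
      (∀ ρ ⊆ τ, ∑ v ∈ ρ, sgn ν v ρ • p v (w (ρ.erase v)) = 0) →
      ∃ u : Finset V → S, (∀ ρ, ∀ v ∈ ρ, p v (u ρ) = u ρ) ∧
        (∀ ρ, u ρ ≠ 0 → ρ ⊆ τ ∧ ρ.card = l) ∧
        ∀ ρ ⊆ τ, ∑ v ∈ ρ, sgn ν v ρ • p v (u (ρ.erase v)) = w ρ := by
  induction τ using Finset.induction_on with
  | empty =>
    intro w _ hs _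
    have h0 : ∀ ρ, w ρ = 0 := by
      intro ρ
      by_contra hne
      obtain ⟨h1, h2⟩ := hs ρ hne
      rw [subset_empty.1 h1, card_empty] at h2
      omega
    refine ⟨0, fun ρ v _ => map_zero _, fun ρ h => absurd rfl h, fun ρ _ => ?_⟩
    rw [h0]
    exact sum_eq_zero fun v _ => by
      rw [Pi.zero_apply, map_zero, smul_zero]
  | insert a τ ha ih =>
    intro w hA hs hD
    have hτ' : Cl G τ := fun u hu v hv huv => hτ u (mem_insert_of_mem hu) v (mem_insert_of_mem hv) huv
    -- commutation inside the clique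
    have hcm : ∀ u ∈ insert a τ, ∀ v ∈ insert a τ, ∀ x, p u (p v x) = p v (p u x) := by
      intro u hu v hv x
      by_cases huv : u = v
      · rw [huv]
      · exact hp.comm u v (hτ u hu v hv huv) x
    -- the part on which `p a` vanishes
    obtain ⟨u1, h1A, h1s, h1D⟩ := ih hτ' (fun ρ => w ρ - p a (w ρ)) (by
        intro ρ v hv
        by_cases hw : w ρ = 0
        · show p v (w ρ - p a (w ρ)) = w ρ - p a (w ρ)
          rw [hw, map_zero, sub_zero, map_zero]
        · obtain ⟨h3, -⟩ := hs ρ hw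
          show p v (w ρ - p a (w ρ)) = w ρ - p a (w ρ)
          rw [map_sub, hcm v (h3 hv) a (mem_insert_self _ _), hA ρ v hv]) (by
        intro ρ hne
        have hw : w ρ ≠ 0 := fun h => hne (by
          show w ρ - p a (w ρ) = 0
          rw [h, map_zero, sub_zero])
        obtain ⟨h3, h4⟩ := hs ρ hw
        refine ⟨fun v hv => ?_, h4⟩
        rcases mem_insert.1 (h3 hv) with rfl | h5
        · exact absurd (by
            show w ρ - p v (w ρ) = 0
            rw [hA ρ v hv, sub_self]) hne
        · exact h5) (by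
        intro ρ hρ
        have h3 := hD ρ (hρ.trans (subset_insert _ _))
        have h4 : ∑ v ∈ ρ, sgn ν v ρ • p v (w (ρ.erase v) - p a (w (ρ.erase v))) =
            (∑ v ∈ ρ, sgn ν v ρ • p v (w (ρ.erase v))) -
              p a (∑ v ∈ ρ, sgn ν v ρ • p v (w (ρ.erase v))) := by
          rw [map_sum, ← sum_sub_distrib]
          refine sum_congr rfl fun v hv => ?_
          rw [map_sub, map_smul, smul_sub,
            hcm v (mem_insert_of_mem (hρ hv)) a (mem_insert_self _ _)]
        rw [h4, h3, map_zero, sub_zero])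
    have h1a : ∀ ρ, a ∈ ρ → u1 ρ = 0 := by
      intro ρ hρ
      by_contra hne
      exact ha ((h1s ρ hne).1 hρ)
    refine ⟨fun ρ => (u1 ρ - p a (u1 ρ)) + if a ∈ ρ then 0 else sgn ν a ρ • w (insert a ρ),
      ?_, ?_, ?_⟩
    · intro ρ v hv
      have e1 : p v (u1 ρ - p a (u1 ρ)) = u1 ρ - p a (u1 ρ) := by
        by_cases hu : u1 ρ = 0
        · rw [hu, map_zero, sub_zero, map_zero]
        · obtain ⟨h3, -⟩ := h1s ρ hu
          rw [map_sub, hcm v (mem_insert_of_mem (h3 hv)) a (mem_insert_self _ _), h1A ρ v hv]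
      show p v ((u1 ρ - p a (u1 ρ)) + if a ∈ ρ then 0 else sgn ν a ρ • w (insert a ρ)) = _
      rw [map_add, e1]
      congr 1
      split_ifs
      · exact map_zero _
      · rw [map_smul, hA _ v (mem_insert_of_mem hv)]
    · intro ρ hne
      by_cases hu : u1 ρ = 0
      · have h3 : (if a ∈ ρ then 0 else sgn ν a ρ • w (insert a ρ)) ≠ 0 := by
          intro h
          apply hne
          show (u1 ρ - p a (u1 ρ)) + (if a ∈ ρ then 0 else sgn ν a ρ • w (insert a ρ)) = 0
          rw [hu, map_zero, sub_zero, h, zero_add]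
        split_ifs at h3 with h4
        · exact absurd rfl h3
        · obtain ⟨h5, h6⟩ := hs _ (right_ne_zero_of_smul h3)
          rw [card_insert_of_notMem h4] at h6
          exact ⟨(subset_insert _ _).trans h5, by omega⟩
      · obtain ⟨h3, h4⟩ := h1s ρ hu
        exact ⟨h3.trans (subset_insert _ _), h4⟩
    · intro ρ hρ
      have e0 : ∑ v ∈ ρ, sgn ν v ρ • p v ((u1 (ρ.erase v) - p a (u1 (ρ.erase v))) +
          if a ∈ ρ.erase v then 0 else sgn ν a (ρ.erase v) • w (insert a (ρ.erase v))) =
          (∑ v ∈ ρ, sgn ν v ρ • p v (u1 (ρ.erase v) - p a (u1 (ρ.erase v)))) +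
          ∑ v ∈ ρ, sgn ν v ρ • p v (if a ∈ ρ.erase v then 0 else
            sgn ν a (ρ.erase v) • w (insert a (ρ.erase v))) := by
        rw [← sum_add_distrib]
        refine sum_congr rfl fun v _ => ?_
        rw [map_add, smul_add]
      show ∑ v ∈ ρ, sgn ν v ρ • p v ((u1 (ρ.erase v) - p a (u1 (ρ.erase v))) +
          if a ∈ ρ.erase v then 0 else sgn ν a (ρ.erase v) • w (insert a (ρ.erase v))) = w ρ
      rw [e0]
      by_cases haρ : a ∈ ρ
      · -- both parts for `a ∈ ρ`
        have e1 : ∑ v ∈ ρ, sgn ν v ρ • p v (u1 (ρ.erase v) - p a (u1 (ρ.erase v))) = 0 := by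
          refine sum_eq_zero fun v hv => ?_
          by_cases hva : v = a
          · rw [hva, map_sub, hp.idem, sub_self, smul_zero]
          · rw [h1a _ (mem_erase.2 ⟨fun h => hva h.symm, haρ⟩), map_zero, sub_zero, map_zero,
              smul_zero]
        have e2 : ∑ v ∈ ρ, sgn ν v ρ • p v (if a ∈ ρ.erase v then 0 else
            sgn ν a (ρ.erase v) • w (insert a (ρ.erase v))) = w ρ := by
          rw [sum_eq_single a]
          · rw [if_neg (notMem_erase a ρ), insert_erase haρ, map_smul, hA ρ a haρ, smul_smul,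
              sgn_erase_self, sgn_sq, one_smul]
          · intro v _ hva
            rw [if_pos (mem_erase.2 ⟨fun h => hva h.symm, haρ⟩), map_zero, smul_zero]
          · exact fun h => absurd haρ h
        rw [e1, e2, zero_add]
      · have hρ' : ρ ⊆ τ := fun v hv => by
          rcases mem_insert.1 (hρ hv) with rfl | h
          · exact absurd hv haρ
          · exact h
        have e1 : ∑ v ∈ ρ, sgn ν v ρ • p v (u1 (ρ.erase v) - p a (u1 (ρ.erase v))) =
            w ρ - p a (w ρ) := by
          have h4 : ∑ v ∈ ρ, sgn ν v ρ • p v (u1 (ρ.erase v) - p a (u1 (ρ.erase v))) =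
              (∑ v ∈ ρ, sgn ν v ρ • p v (u1 (ρ.erase v))) -
                p a (∑ v ∈ ρ, sgn ν v ρ • p v (u1 (ρ.erase v))) := by
            rw [map_sum, ← sum_sub_distrib]
            refine sum_congr rfl fun v hv => ?_
            rw [map_sub, map_smul, smul_sub,
              hcm v (mem_insert_of_mem (hρ' hv)) a (mem_insert_self _ _)]
          rw [h4, h1D ρ hρ', map_sub, hp.idem, sub_self, sub_zero]
        have e2 : ∑ v ∈ ρ, sgn ν v ρ • p v (if a ∈ ρ.erase v then 0 else
            sgn ν a (ρ.erase v) • w (insert a (ρ.erase v))) = p a (w ρ) := by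
          have h5 := hD (insert a ρ) (insert_subset (mem_insert_self _ _) hρ)
          rw [sum_insert haρ, erase_insert haρ, sgn_insert_self] at h5
          have h6 : ∀ v ∈ ρ, sgn ν v ρ • p v (if a ∈ ρ.erase v then 0 else
              sgn ν a (ρ.erase v) • w (insert a (ρ.erase v))) =
              -(sgn ν a ρ • (sgn ν v (insert a ρ) • p v (w ((insert a ρ).erase v)))) := by
            intro v hv
            have hva : v ≠ a := fun h => haρ (h ▸ hv)
            rw [if_neg (fun h => haρ (mem_of_mem_erase h)), map_smul, smul_smul, smul_smul,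
              ← neg_smul, erase_insert_of_ne (fun h => hva h.symm)]
            congr 1
            have h7 := sgn_swap_mix ν hν v a hva ρ hv haρ
            linarith
          rw [sum_congr rfl h6, sum_neg_distrib, ← smul_sum]
          have h8 : ∑ v ∈ ρ, sgn ν v (insert a ρ) • p v (w ((insert a ρ).erase v)) =
              -(sgn ν a ρ • p a (w ρ)) := by
            rw [eq_neg_iff_add_eq_zero, add_comm]
            exact h5
          rw [h8, smul_neg, neg_neg, smul_smul, sgn_sq, one_smul]
        rw [e1, e2, sub_add_cancel]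

end Pool.Agent.H19.PD
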