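import Pool.Agent.H73.GC.Defs

/-!
# Growth calculus: transport along an embedding of graphs
-/

set_option autoImplicit false
set_option linter.unusedSectionVars false

open Finset

namespace Pool.Agent.H19.PD

open Pool.Agent.H73.GC

variable {V W : Type} [DecidableEq V] [Fintype V] [DecidableEq W] [Fintype W]
  {Y : Type} [AddCommGroup Y] [Module F2 Y]

/-- restriction of chains along a map of the vertices -/
def re (U : Finset V) (φ : V → W) : (Finset W → Y) →ₗ[F2] (Finset V → Y) where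
  toFun g s := if s ⊆ U then g (s.image φ) else 0
  map_add' f g := by
    funext s
    by_cases h : s ⊆ U <;> simp [h]
  map_smul' c g := by
    funext s
    by_cases h : s ⊆ U <;> simp [h]

theorem re_apply (U : Finset V) (φ : V → W) (g : Finset W → Y) (s : Finset V) :
    re U φ g s = if s ⊆ U then g (s.image φ) else 0 := rfl

variable {U : Finset V} {φ : V → W}

/-- the set of the preimages -/
private def pre (U : Finset V) (φ : V → W) (t : Finset W) : Finset V := U.filter fun v => φ v ∈ t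

private theorem pre_sub (t : Finset W) : pre U φ t ⊆ U := filter_subset _ _

private theorem pre_image (hφ : Set.InjOn φ U) {s : Finset V} (hs : s ⊆ U) :
    pre U φ (s.image φ) = s := by
  ext v
  unfold pre
  rw [mem_filter, mem_image]
  constructor
  · rintro ⟨hv, u, hu, huv⟩
    rwa [← hφ (hs hu) hv huv]
  · exact fun hv => ⟨hs hv, v, hv, rfl⟩

private theorem image_pre {t : Finset W} (ht : t ⊆ U.image φ) : (pre U φ t).image φ = t := by
  ext w
  rw [mem_image]
  constructor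
  · rintro ⟨v, hv, rfl⟩
    exact (mem_filter.1 hv).2
  · intro hw
    obtain ⟨v, hv, rfl⟩ := mem_image.1 (ht hw)
    exact ⟨v, mem_filter.2 ⟨hv, hw⟩, rfl⟩

private theorem card_im (hφ : Set.InjOn φ U) {s : Finset V} (hs : s ⊆ U) :
    (s.image φ).card = s.card :=
  card_image_of_injOn (hφ.mono (by exact_mod_cast hs))

/-- restriction commutes with the boundary -/
private theorem re_dd (hφ : Set.InjOn φ U) {g : Finset W → Y} (hg : ∀ t, g t ≠ 0 → t ⊆ U.image φ) :
    dd (re U φ g) = re U φ (dd g) := by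
  funext s
  rw [dd_apply, re_apply]
  by_cases hs : s ⊆ U
  · rw [if_pos hs, dd_apply]
    have h1 : ∑ v ∈ sᶜ, re U φ g (insert v s) = ∑ v ∈ U \ s, g (insert (φ v) (s.image φ)) := by
      symm
      refine sum_subset_zero_on_sdiff (fun v hv => mem_compl.2 (mem_sdiff.1 hv).2) ?_ ?_
      · intro v hv
        rw [mem_sdiff, mem_sdiff] at hv
        rw [re_apply, if_neg]
        intro h
        exact hv.2 ⟨h (mem_insert_self _ _), mem_compl.1 hv.1⟩
      · intro v hv
        rw [re_apply, if_pos (insert_subset (mem_sdiff.1 hv).1 hs), image_insert]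
    have h2 : ∑ w ∈ (s.image φ)ᶜ, g (insert w (s.image φ)) =
        ∑ v ∈ U \ s, g (insert (φ v) (s.image φ)) := by
      have h3 : ∑ w ∈ (U \ s).image φ, g (insert w (s.image φ)) =
          ∑ v ∈ U \ s, g (insert (φ v) (s.image φ)) := by
        refine sum_image fun u hu v hv huv => hφ ?_ ?_ huv
        · exact (mem_sdiff.1 hu).1
        · exact (mem_sdiff.1 hv).1
      rw [← h3]
      symm
      refine sum_subset_zero_on_sdiff ?_ ?_ fun _ _ => rfl
      · intro w hw
        obtain ⟨v, hv, rfl⟩ := mem_image.1 hw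
        rw [mem_compl, mem_image]
        rintro ⟨u, hu, huv⟩
        rw [mem_sdiff] at hv
        exact hv.2 (hφ (hs hu) hv.1 huv ▸ hu)
      · intro w hw
        rw [mem_sdiff, mem_compl] at hw
        by_contra hne
        have h4 := hg _ hne (mem_insert_self w _)
        obtain ⟨v, hv, rfl⟩ := mem_image.1 h4
        refine hw.2 (mem_image.2 ⟨v, mem_sdiff.2 ⟨hv, fun h5 => hw.1 (mem_image_of_mem φ h5)⟩, rfl⟩)
    rw [h1, h2]
  · rw [if_neg hs]
    refine sum_eq_zero fun v _ => ?_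
    rw [re_apply, if_neg fun h => hs ((subset_insert _ _).trans h)]

private theorem frk {E F : Type} [AddCommGroup E] [Module F2 E] [AddCommGroup F] [Module F2 F]
    (f : E →ₗ[F2] F) (p : Submodule F2 E) (h : ∀ x ∈ p, f x = 0 → x = 0) :
    Module.finrank F2 (p.map f) = Module.finrank F2 p := by
  rw [← LinearMap.range_domRestrict]
  refine LinearMap.finrank_range_of_inj ?_
  rw [← LinearMap.ker_eq_bot, LinearMap.ker_eq_bot']
  rintro ⟨x, hx⟩ h0
  exact Subtype.ext (h x hx h0)

variable {G : SimpleGraph V} {H : SimpleGraph W}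

private theorem cq_image (hφ : Set.InjOn φ U)
    (hadj : ∀ a ∈ U, ∀ b ∈ U, G.Adj a b ↔ H.Adj (φ a) (φ b)) {s : Finset V} (hs : s ⊆ U) :
    Cq H (U.image φ) (s.image φ) ↔ Cq G U s := by
  unfold Cq
  constructor
  · rintro ⟨h1, -⟩
    refine ⟨fun a ha b hb hab => ?_, hs⟩
    have h2 := h1 (show φ a ∈ ((s.image φ : Finset W) : Set W) from
      mem_coe.2 (mem_image_of_mem φ (mem_coe.1 ha)))
      (show φ b ∈ ((s.image φ : Finset W) : Set W) from
      mem_coe.2 (mem_image_of_mem φ (mem_coe.1 hb)))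
      (fun h => hab (hφ (hs (mem_coe.1 ha)) (hs (mem_coe.1 hb)) h))
    exact (hadj a (hs (mem_coe.1 ha)) b (hs (mem_coe.1 hb))).2 h2
  · rintro ⟨h1, -⟩
    refine ⟨?_, image_subset_image hs⟩
    intro x hx y hy hxy
    obtain ⟨a, ha, rfl⟩ := mem_image.1 (mem_coe.1 hx)
    obtain ⟨b, hb, rfl⟩ := mem_image.1 (mem_coe.1 hy)
    exact (hadj a (hs ha) b (hs hb)).1 (h1 (mem_coe.2 ha) (mem_coe.2 hb) fun h => hxy (by rw [h]))

private theorem ch_map (hφ : Set.InjOn φ U)
    (hadj : ∀ a ∈ U, ∀ b ∈ U, G.Adj a b ↔ H.Adj (φ a) (φ b)) (r : W → Module.End F2 Y) (i : ℕ) :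
    (Ch (Sy (Cq H (U.image φ)) r) i).map (re U φ) = Ch (Sy (Cq G U) fun v => r (φ v)) i := by
  ext f
  constructor
  · rintro ⟨g, hg, rfl⟩
    intro s
    rw [re_apply]
    by_cases hs : s ⊆ U
    · rw [if_pos hs]
      obtain ⟨⟨h1, h2⟩, h3⟩ := hg (s.image φ)
      refine ⟨⟨fun hn => h1 fun h => hn ((cq_image hφ hadj hs).1 h),
        fun v hv => h2 _ (mem_image_of_mem φ hv)⟩, fun hc => h3 ?_⟩
      rwa [card_im hφ hs]
    · rw [if_neg hs]
      exact ⟨Submodule.zero_mem _, fun _ => rfl⟩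
  · intro hf
    refine ⟨fun t => if t ⊆ U.image φ then f (pre U φ t) else 0, ?_, ?_⟩
    · intro t
      beta_reduce
      by_cases ht : t ⊆ U.image φ
      · rw [if_pos ht]
        obtain ⟨⟨h1, h2⟩, h3⟩ := hf (pre U φ t)
        have h4 : (pre U φ t).card = t.card := by
          rw [← card_im hφ (pre_sub t), image_pre ht]
        refine ⟨⟨fun hn => h1 fun h => hn ?_, fun w hw => ?_⟩, fun hc => h3 ?_⟩
        · rw [← image_pre ht]
          exact (cq_image hφ hadj (pre_sub t)).2 h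
        · obtain ⟨v, hv, rfl⟩ := mem_image.1 (ht hw)
          exact h2 v (mem_filter.2 ⟨hv, hw⟩)
        · rwa [h4]
      · rw [if_neg ht]
        exact ⟨Submodule.zero_mem _, fun _ => rfl⟩
    · funext s
      rw [re_apply]
      by_cases hs : s ⊆ U
      · rw [if_pos hs, if_pos (image_subset_image hs), pre_image hφ hs]
      · rw [if_neg hs]
        exact ((hf s).1.1 fun h => hs h.2).symm

private theorem re_inj {g : Finset W → Y} (hg : ∀ t, g t ≠ 0 → t ⊆ U.image φ)
    (h : re U φ g = 0) : g = 0 := by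
  funext t
  by_contra hne
  have ht := hg t hne
  have h1 := congrFun h (pre U φ t)
  rw [re_apply, if_pos (pre_sub t), image_pre ht] at h1
  exact hne h1

private theorem ch_supp {r : W → Module.End F2 Y} {i : ℕ} {g : Finset W → Y}
    (hg : g ∈ Ch (Sy (Cq H (U.image φ)) r) i) : ∀ t, g t ≠ 0 → t ⊆ U.image φ := by
  intro t ht
  by_contra hn
  exact ht ((hg t).1.1 fun h => hn h.2)

theorem hX_emb (hφ : Set.InjOn φ U)
    (hadj : ∀ a ∈ U, ∀ b ∈ U, G.Adj a b ↔ H.Adj (φ a) (φ b)) (r : W → Module.End F2 Y) (i : ℕ) :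
    hX (Cq G U) (fun v => r (φ v)) i = hX (Cq H (U.image φ)) r i := by
  unfold hX hd hx
  congr 2
  · -- cycles
    have h1 : (Ch (Sy (Cq H (U.image φ)) r) i ⊓ LinearMap.ker dd).map (re U φ) =
        Ch (Sy (Cq G U) fun v => r (φ v)) i ⊓ LinearMap.ker dd := by
      ext f
      constructor
      · rintro ⟨g, ⟨hg, hk⟩, rfl⟩
        refine ⟨?_, ?_⟩
        · rw [← ch_map hφ hadj r i]
          exact ⟨g, hg, rfl⟩
        · have hk' : dd g = 0 := hk
          show dd (re U φ g) = 0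
          rw [re_dd hφ (ch_supp hg), hk', map_zero]
      · rintro ⟨hf, hk⟩
        have hf' : f ∈ (Ch (Sy (Cq H (U.image φ)) r) i).map (re U φ) := by
          rw [ch_map hφ hadj r i]
          exact hf
        obtain ⟨g, hg, rfl⟩ := hf'
        refine ⟨g, ⟨hg, ?_⟩, rfl⟩
        have hk' : dd (re U φ g) = 0 := hk
        rw [re_dd hφ (ch_supp hg)] at hk'
        refine re_inj (fun t ht => ?_) hk'
        rw [dd_apply] at ht
        obtain ⟨w, _, hw⟩ := exists_ne_zero_of_sum_ne_zero ht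
        exact (subset_insert _ _).trans (ch_supp hg _ hw)
    rw [← h1, frk]
    rintro g ⟨hg, -⟩ h0
    exact re_inj (ch_supp hg) h0
  · -- boundaries
    have h1 : ((Ch (Sy (Cq H (U.image φ)) r) (i + 1)).map dd).map (re U φ) =
        (Ch (Sy (Cq G U) fun v => r (φ v)) (i + 1)).map dd := by
      rw [← ch_map hφ hadj r (i + 1)]
      ext f
      constructor
      · rintro ⟨_, ⟨g, hg, rfl⟩, rfl⟩
        exact ⟨re U φ g, ⟨g, hg, rfl⟩, re_dd hφ (ch_supp hg)⟩
      · rintro ⟨_, ⟨g, hg, rfl⟩, rfl⟩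
        exact ⟨dd g, ⟨g, hg, rfl⟩, (re_dd hφ (ch_supp hg)).symm⟩
    rw [← h1, frk]
    rintro _ ⟨g, hg, rfl⟩ h0
    refine re_inj (fun t ht => ?_) h0
    rw [dd_apply] at ht
    obtain ⟨w, _, hw⟩ := exists_ne_zero_of_sum_ne_zero ht
    exact (subset_insert _ _).trans (ch_supp hg _ hw)

/-- **Transport along an embedding.** -/
theorem gz_emb (hφ : Set.InjOn φ U) (hadj : ∀ a ∈ U, ∀ b ∈ U, G.Adj a b ↔ H.Adj (φ a) (φ b))
    {i : ℕ} (h : GZ H (U.image φ) i) : GZ G U i := by
  intro ε hε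
  obtain ⟨Y, _, _, _, r, E, hN, hB, hp, hX⟩ := h ε hε
  have hm : ∀ v ∈ U, φ v ∈ U.image φ := fun v hv => mem_image_of_mem φ hv
  refine ⟨Y, inferInstance, inferInstance, inferInstance, fun v => r (φ v), fun v => E (φ v),
    ⟨fun v hv => hN.sq _ (hm v hv), fun u hu v hv huv =>
      hN.comm _ (hm u hu) _ (hm v hv) ((hadj u hu v hv).1 huv), ?_⟩,
    ⟨fun v hv => hB.idem _ (hm v hv), fun v hv => hB.bit _ (hm v hv), fun u hu v hv huv =>
      hB.er _ (hm u hu) _ (hm v hv) ((hadj u hu v hv).1 huv), fun u hu v hv huv =>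
      hB.ee _ (hm u hu) _ (hm v hv) ((hadj u hu v hv).1 huv)⟩, hp, ?_⟩
  · obtain ⟨n, F, h1, h2, h3, h4⟩ := hN.fil
    exact ⟨n, F, h1, h2, h3, fun j v hv => h4 j _ (hm v hv)⟩
  · rw [hX_emb hφ hadj]
    exact hX

end Pool.Agent.H19.PD
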