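import Pool.Agent.H19.PD.Planar
import Pool.Agent.H19.PD.L2
import Pool.Agent.H49.FS.Edge
import Pool.Agent.H49.FS.Contr
import Pool.Agent.H32.S2.Pub

/-!
# Right-angled Coxeter groups over flag complexes whose vertex links are planar
-/

set_option autoImplicit false
set_option linter.unusedSectionVars false

open Finset

namespace Pool.Agent.H19.PD

open Pool.Agent.H73.GC Pool.Agent.H67.FS Pool.Agent.H32.S2

variable {V : Type} [DecidableEq V] [Fintype V] {G : SimpleGraph V}

/-- flag 2-spheres -/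
theorem fs_gz {U : Finset V} (h : FS G U) {i : ℕ} (hi : 1 ≤ i) : GZ G U i := by
  induction hn : U.card using Nat.strong_induction_on generalizing G U with
  | _ n ih =>
    subst hn
    rcases Pool.Agent.H49.FS.exists_edge h with ⟨x, hx, u, hu, hxu, hN⟩ | ⟨a, ha, b, hb, h1, h2, h3⟩
    · obtain ⟨i, rfl⟩ : ∃ j, i = j + 1 := ⟨i - 1, by omega⟩
      obtain ⟨p, q, hpq, he, hnp⟩ := h.surf.pair hx hu hxu
      refine gz_merge hx hu hxu.ne hN (ih _ (card_lt_card (erase_ssubset hx))
        (Pool.Agent.H49.FS.fs_merge h hx hu hxu hN) rfl) ?_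
      rw [he]
      refine gz_susp (a := p) (b := q) (by simp) (by simp) hpq hnp ?_ i
      intro w hw h4 h5
      rw [mem_insert, mem_singleton] at hw
      rcases hw with h6 | h6
      · exact absurd h6 h4
      · exact absurd h6 h5
    · exact gz_susp ha hb h1 h2 h3 i

/-- full subcomplexes of flag 2-spheres, in terms of embeddings -/
theorem gz_planar {A : Finset V} {W : Type} [DecidableEq W] [Fintype W] {H : SimpleGraph W}
    (hH : IsSphere H) (φ : V → W) (hφ : Set.InjOn φ A)
    (hadj : ∀ a ∈ A, ∀ b ∈ A, G.Adj a b ↔ H.Adj (φ a) (φ b)) {i : ℕ} (hi : 2 ≤ i) : GZ G A i :=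
  gz_emb hφ hadj (gz_sub_fs hH.fs (fun j hj => fs_gz hH.fs (by omega)) (subset_univ _) hi)

/-- `G` is a full subcomplex of a flag 2-sphere. -/
def Planar {V : Type} (G : SimpleGraph V) : Prop :=
  ∃ (W : Type) (_ : Fintype W) (H : SimpleGraph W), IsSphere H ∧ Nonempty (G ↪g H)

/-- the common neighbours of the vertices in `σ` -/
def cn {V : Type} (G : SimpleGraph V) (σ : Finset V) : Set V := {w | ∀ v ∈ σ, G.Adj v w}

/-- the link of every clique with `k` vertices is planar -/
def LinksPlanar {V : Type} (G : SimpleGraph V) (k : ℕ) : Prop :=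
  ∀ σ : Finset V, G.IsClique (σ : Set V) → σ.card = k → Planar (G.induce (cn G σ))

theorem gz_cn {k : ℕ} (h : LinksPlanar G k) (j : ℕ) :
    ∀ τ : Finset V, G.IsClique (τ : Set V) → τ.card + j = k →
      ∀ A : Finset V, (∀ w ∈ A, w ∈ cn G τ) → ∀ i, j + 2 ≤ i → GZ G A i := by
  classical
  induction j with
  | zero =>
    intro τ hτ hk A hA i hi
    obtain ⟨W, _, H, hH, ⟨e⟩⟩ := h τ hτ hk
    by_cases hne : A.Nonempty
    · obtain ⟨w₀, hw₀⟩ := hne
      refine gz_planar hH (fun w => if hw : w ∈ cn G τ then e ⟨w, hw⟩ else e ⟨w₀, hA w₀ hw₀⟩)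
        ?_ ?_ (by omega)
      · intro a ha b hb hab
        simp only [dif_pos (hA a ha), dif_pos (hA b hb)] at hab
        exact congrArg Subtype.val (e.injective hab)
      · intro a ha b hb
        simp only [dif_pos (hA a ha), dif_pos (hA b hb)]
        rw [e.map_adj_iff]
        rfl
    · rw [not_nonempty_iff_eq_empty.1 hne]
      exact gz_empty G (by omega)
  | succ j ih =>
    intro τ hτ hk A hA i hi
    obtain ⟨i, rfl⟩ : ∃ l, i = l + 1 := ⟨i - 1, by omega⟩
    refine gz_of_links fun B hB v hv => ?_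
    have hvτ : ∀ u ∈ τ, G.Adj u v := hA v (hB hv)
    have hvn : v ∉ τ := fun h1 => (hvτ v h1).ne rfl
    refine ih (insert v τ) ?_ (by rw [card_insert_of_notMem hvn]; omega) _ ?_ i (by omega)
    · rw [coe_insert, SimpleGraph.isClique_insert]
      exact ⟨hτ, fun u hu _ => (hvτ u hu).symm⟩
    · intro w hw u hu
      rcases mem_insert.1 hu with rfl | hu
      · exact (mem_lk.1 hw).2
      · exact hA w (hB (mem_lk.1 hw).1) u hu

/-- **Right-angled Coxeter groups over flag complexes for which the links of the simplices with `n - 3` vertices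
are planar.** -/
theorem l2_links {n : ℕ} (h : LinksPlanar G (n - 3)) (hn : 3 ≤ n) {i : ℕ}
    (hi : n ≤ i + 1 ∨ (Pool.Agent.H85.Fold.IsHomologySphere G n ∧ i ≤ 1)) :
    Pool.Agent.H4.Singer.L2HomologyZero G i := by
  have h1 : ∀ j, n ≤ j + 1 → Pool.Agent.H4.Singer.L2HomologyZero G j := fun j hj =>
    gz_racg_univ (gz_cn h (n - 3) ∅ (by simp) (by simp) univ
      (fun w _ v hv => absurd hv (notMem_empty v)) j (by omega))
  rcases hi with hi | ⟨hS, hi⟩
  · exact h1 i hi
  · exact l2_dual (j := n - i) hS (by omega) (h1 _ (by omega))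

end Pool.Agent.H19.PD
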