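import Pool.Agent.H19.PD.Emb
import Pool.Agent.H73.GC.Good
import Pool.Agent.H67.FS.Defs

/-!
# Growth calculus: full subcomplexes of flag 2-spheres, and complexes whose links are such
-/

set_option autoImplicit false
set_option linter.unusedSectionVars false

open Finset

namespace Pool.Agent.H19.PD

open Pool.Agent.H73.GC Pool.Agent.H67.FS

variable {V : Type} [DecidableEq V] [Fintype V] {G : SimpleGraph V}

theorem gz_empty (G : SimpleGraph V) {i : ℕ} (hi : 1 ≤ i) : GZ G ∅ i :=
  gz_high fun s hs hc => by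
    have h1 : s = ∅ := subset_empty.1 hs.2
    rw [h1, card_empty] at hc
    omega

/-- at most two points, not adjacent -/
theorem gz_points {A : Finset V} (hA : A.card ≤ 2) (hn : ∀ a ∈ A, ∀ b ∈ A, ¬ G.Adj a b) {i : ℕ}
    (hi : 1 ≤ i) : GZ G A i := by
  rcases Nat.lt_or_ge A.card 2 with h | h
  · rcases Nat.lt_or_ge A.card 1 with h1 | h1
    · rw [card_eq_zero.1 (by omega : A.card = 0)]
      exact gz_empty G hi
    · obtain ⟨a, rfl⟩ := card_eq_one.1 (by omega : A.card = 1)
      have h2 : ({a} : Finset V) = insert a ∅ := rfl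
      rw [h2]
      exact gz_cone (notMem_empty a) (fun w hw => absurd hw (notMem_empty w)) (gz_empty G hi)
  · obtain ⟨a, b, hab, rfl⟩ := card_eq_two.1 (by omega : A.card = 2)
    refine gz_susp (a := a) (b := b) (by simp) (by simp) hab (hn a (by simp) b (by simp)) ?_ i
    intro w hw h1 h2
    rw [mem_insert, mem_singleton] at hw
    rcases hw with h3 | h3
    · exact absurd h3 h1
    · exact absurd h3 h2

/-- complexes with vertex links with vanishing growth in degree `i`: vanishing growth in degree `i + 1` -/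
theorem gz_of_links {A : Finset V} {i : ℕ} (h : ∀ B ⊆ A, ∀ v ∈ B, GZ G (lk G B v) i) :
    GZ G A (i + 1) := by
  induction A using Finset.strongInduction with
  | H A ih =>
    by_cases hne : A.Nonempty
    · obtain ⟨v, hv⟩ := hne
      refine gz_del hv (ih _ (erase_ssubset hv) fun B hB w hw => ?_) (h A (Subset.refl A) v hv)
      exact h B (hB.trans (erase_subset _ _)) w hw
    · rw [not_nonempty_iff_eq_empty.1 hne]
      exact gz_empty G (by omega)

/-- subcomplexes of circuits -/
theorem gz_sub_cyc {Z A : Finset V} (hZ : Cyc G Z) (hA : A ⊆ Z) {i : ℕ} (hi : 2 ≤ i) : GZ G A i := by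
  obtain ⟨i, rfl⟩ : ∃ j, i = j + 1 := ⟨i - 1, by omega⟩
  refine gz_of_links fun B hB v hv => ?_
  have hBZ : B ⊆ Z := hB.trans hA
  have hs : lk G B v ⊆ lk G Z v := fun w hw => mem_lk.2 ⟨hBZ (mem_lk.1 hw).1, (mem_lk.1 hw).2⟩
  refine gz_points ((card_le_card hs).trans (hZ.two v (hBZ hv)).le) (fun a ha b hb hab => ?_) (by omega)
  rw [mem_lk] at ha hb
  exact hZ.noTri (hBZ hv) (hBZ ha.1) (hBZ hb.1) ha.2 hb.2 hab

/-- full subcomplexes of a flag 2-sphere -/
theorem gz_sub_fs {U A : Finset V} (hU : FS G U) (hg : ∀ i, 2 ≤ i → GZ G U i) (hA : A ⊆ U) {i : ℕ}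
    (hi : 2 ≤ i) : GZ G A i := by
  have key : ∀ (k : ℕ) (A : Finset V), A ⊆ U → (U \ A).card = k → GZ G A i := by
    intro k
    induction k with
    | zero =>
      intro A hA hk
      have h1 : U ⊆ A := by
        rw [card_eq_zero, sdiff_eq_empty_iff_subset] at hk
        exact hk
      rw [subset_antisymm hA h1]
      exact hg i hi
    | succ k ih =>
      intro A hA hk
      obtain ⟨v, hv⟩ : (U \ A).Nonempty := card_pos.1 (by omega)
      have hv' := mem_sdiff.1 hv
      have h1 : insert v A ⊆ U := insert_subset hv'.1 hA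
      have h2 : (U \ insert v A).card = k := by
        rw [sdiff_insert, card_erase_of_mem hv, hk]
        rfl
      have h3 := ih (insert v A) h1 h2
      have h4 : GZ G (lk G (insert v A) v) i := by
        refine gz_sub_cyc (hU.surf.cyc v hv'.1) (fun w hw => ?_) hi
        exact mem_lk.2 ⟨h1 (mem_lk.1 hw).1, (mem_lk.1 hw).2⟩
      have h5 := gz_rem (mem_insert_self v A) h3 h4
      rwa [erase_insert hv'.2] at h5
  exact key _ A hA rfl

end Pool.Agent.H19.PD
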